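import Pool.Agent.H85.Game

set_option autoImplicit false

namespace Pool.Agent.Results.MP_549d70_gt.SelFin

open Pool.Agent.H85.GameDefs

universe u

/-- Game characterisation of the finite selection principle for every topological space. -/
theorem result (X : Type u) [TopologicalSpace X] : Sfin (DOmega X) ↔ ¬ OneWinsGfin (DOmega X) :=
  Pool.Agent.H85.Game.sfin_iff

end Pool.Agent.Results.MP_549d70_gt.SelFin
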